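import Pool.Agent.H429R4.Dehn.Main

/-!
# Dehn presentations of hyperbolic groups cannot be computed in polynomial time

Consider the presentation `fam n` of the infinite cyclic group with generators `x_0, ..., x_n` and
relators `x_i x_i x_(i+1)⁻¹`, so that `x_i` stands for the integer `2 ^ i`. Its size is `4 n + 1`.
Every finite set `R` of words with the same normal closure which gives a Dehn presentation on these
generators has superexponential size. Indeed, let `m = n / 2 + 1`, and let `π` be a permutation of
the `m` generators with even numbers. The word
`x_(2π(0)) ... x_(2π(m-1)) x_(2π(0))⁻¹ ... x_(2π(m-1))⁻¹` represents the identity, but its subwords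
in which no generator occurs twice are geodesic (a sum of distinct powers of four with signs is not
a shorter sum of powers of two with signs). So the subword `u` given by the Dehn property contains
one of the segments of length `m + 1`, and each of them determines `π`. Hence the cyclic
permutations of the elements of `R` and of their inverses have at least `m! / m` different segments.

A Dehn presentation of the group on the given generators exists: here the local-to-global property
of geodesics is checked directly for the relators of length at most `4 n + 4`.
-/

namespace Pool.Agent.Results.MP_0fd394_lc.DehnOutputTooLong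

open Pool.Agent.NPC Pool.Agent.H429R4.Dehn

/-- **Dehn presentations of hyperbolic groups cannot be computed in polynomial time.**
1. No polynomial-time algorithm computes, from a finite presentation of a hyperbolic group, a finite
   set of words on the same generators with the same normal closure which gives a Dehn
   presentation.
2. There is not even a function which does this and whose output on the presentations of hyperbolic
   groups has length polynomially bounded in the size of the presentation (so it does not matter
   what kind of machine is used, nor what the machine does on other inputs).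
3. The presentations `fam n` have size `4 n + 1` and define hyperbolic groups, they admit a set of
   words as in 1, and every such set has size `s` with `(⌊n / 2⌋ + 1)! ≤ (n + 2) s ^ 2`. -/
theorem result :
    (¬ ∃ A : List Bool → List Bool, PolyTime A ∧ ∀ P : Pres, Hyperbolic P.Grp →
      ∃ R : List (Word P.k), A P.code = codeWords R ∧ ncl R = ncl P.rels ∧ IsDehn R) ∧
    (¬ ∃ (A : List Bool → List Bool) (p : Polynomial ℕ), ∀ P : Pres, Hyperbolic P.Grp →
      (A P.code).length ≤ p.eval P.size ∧
      ∃ R : List (Word P.k), A P.code = codeWords R ∧ ncl R = ncl P.rels ∧ IsDehn R) ∧
    ∀ n : ℕ, (fam n).size = 4 * n + 1 ∧ Hyperbolic (fam n).Grp ∧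
      (∃ R : List (Word (fam n).k), ncl R = ncl (fam n).rels ∧ IsDehn R) ∧
      ∀ R : List (Word (fam n).k), ncl R = ncl (fam n).rels → IsDehn R →
        (n / 2 + 1).factorial ≤ (n + 2) * Pres.size ⟨(fam n).k, R⟩ ^ 2 := by
  refine ⟨?_, ?_, fun n => ⟨size_fam n, hyp_fam n, exists_dehn n, fun R h1 h2 => ?_⟩⟩
  · rintro ⟨A, hA, h⟩
    obtain ⟨p, hp⟩ := (Pool.Agent.H642R2.TMSim.polyTime_toPC hA).length_le
    exact not_bounded A p (fun n => hp _) h
  · rintro ⟨A, p, h⟩
    refine not_bounded A p (fun n => ?_) fun P hP => (h P hP).2
    exact ((h (fam n) (hyp_fam n)).1).trans (eval_mono' p (size_le_code _))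
  · rcases Nat.lt_or_ge n 2 with hn | hn
    · have h3 : n / 2 + 1 = 1 := by omega
      rw [h3, Nat.factorial_one]
      have h4 : 1 ≤ Pres.size ⟨(fam n).k, R⟩ := by
        unfold Pres.size
        have : (fam n).k = n + 1 := rfl
        simp only [this]
        omega
      exact Nat.one_le_iff_ne_zero.2 (by positivity)
    · have h3 := factorial_le (m := n / 2 + 1) (n := n) (by omega) (by omega) h1 h2
      refine h3.trans ?_
      have h4 : total R ≤ Pres.size ⟨(fam n).k, R⟩ := Nat.le_add_left _ _
      rw [pow_two]
      exact Nat.mul_le_mul (by omega) (Nat.mul_le_mul h4 h4)

end Pool.Agent.Results.MP_0fd394_lc.DehnOutputTooLong
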